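import Mathlib
import Pool.Agent.H29.WalkNRDefs
import Pool.Agent.H29.WalkNR

set_option autoImplicit false

namespace Pool.Agent.Results.MP_c566a2_co.Value

open Pool.Agent.H29.WalkNR Pool.Agent.H29.SqFree

theorem result : piW (SimpleGraph.pathGraph 5) = 3 ∧
    ∀ n : ℕ, 6 ≤ n → piW (SimpleGraph.pathGraph n) = 4 := by
  constructor
  · refine pi_eq _ 3 (by norm_num) ⟨_, wnr_of 5 3 (fun i => i % 3) (fun i => by omega) ?_ ?_⟩
      (fun p q hp c hc => low3 hp hc)
    · intro i p h1 h2 h3
      have := h3 0 (by omega)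
      omega
    · intro i _
      omega
  · intro n hn
    exact pi_eq _ 4 (by norm_num) ⟨_, wnr_of n 4 quad quad_lt (fun i p h _ => quad_sq i p h)
      (fun i _ => quad_aba i)⟩ (fun p q hp c hc => low4 hn hp hc)

end Pool.Agent.Results.MP_c566a2_co.Value
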